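import Pool.Agent.H42.UR.Coh

/-!
# The mapping cone of a map of resolutions (block (4) of Theorem U, module Cone)
-/

set_option autoImplicit false

namespace Pool.Agent.H42.UR

open Matrix Pool.Agent.H16.UN Pool.Agent.H19.UR

section

variable {R : Type} [Ring R] {X Y : FC R} {F : Matrix X.ι Y.ι R}

theorem cone_vec (h : IsMap X Y F) (v : (FC.cone X Y F h).ι → R) :
    ∃ (y : Y.ι → R) (x : X.ι → R), v = Sum.elim y x :=
  ⟨fun a => v (Sum.inl a), fun b => v (Sum.inr b), by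
    funext a
    rcases a with a | a <;> rfl⟩

theorem cone_D (h : IsMap X Y F) (y : Y.ι → R) (x : X.ι → R) :
    (Sum.elim y x : Y.ι ⊕ X.ι → R) ᵥ* (FC.cone X Y F h).D =
      Sum.elim (y ᵥ* Y.D + x ᵥ* F) (-(x ᵥ* X.D)) := by
  show (Sum.elim y x : Y.ι ⊕ X.ι → R) ᵥ* fromBlocks Y.D 0 F (-X.D) = _
  rw [Matrix.vecMul_fromBlocks]
  simp [vecMul_neg]

theorem cone_hom (h : IsMap X Y F) (k : ℤ) (y : Y.ι → R) (x : X.ι → R) :
    (FC.cone X Y F h).Hom k (Sum.elim y x) ↔ Y.Hom k y ∧ X.Hom (k - 1) x := by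
  constructor
  · intro hs
    refine ⟨fun b hb => hs (Sum.inl b) hb, fun a ha => ?_⟩
    have h1 : X.deg a + 1 = k := hs (Sum.inr a) ha
    omega
  · rintro ⟨h2, h1⟩ (b | a) hab
    · exact h2 b hab
    · have := h1 a hab
      show X.deg a + 1 = k
      omega

/-- the cone of a map of resolutions over an injective map `g : K → L` is a resolution of every
cokernel `N` of `g` -/
theorem cone_res {K L N : Type} [AddCommGroup K] [Module R K] [AddCommGroup L] [Module R L]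
    [AddCommGroup N] [Module R N] {ε : X.ι → K} {δ : Y.ι → L} (hX : IsRes X ε) (hY : IsRes Y δ)
    (h : IsMap X Y F) {g : K →ₗ[R] L}
    (hF : ∀ v, X.Hom 0 v → ev δ (v ᵥ* F) = g (ev ε v)) (hg : Function.Injective g)
    {p : L →ₗ[R] N} (hp : Function.Surjective p) (hpg : ∀ l, p l = 0 ↔ ∃ k, g k = l) :
    IsRes (FC.cone X Y F h) (Sum.elim (fun b => p (δ b)) (fun _ => 0) : Y.ι ⊕ X.ι → N) := by
  have hev : ∀ (y : Y.ι → R) (x : X.ι → R),
      ev (Sum.elim (fun b => p (δ b)) (fun _ => (0 : N))) (Sum.elim y x : Y.ι ⊕ X.ι → R)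
        = p (ev δ y) := by
    intro y x
    rw [ev_apply, Fintype.sum_sum_type, ev_apply, map_sum]
    simp only [Sum.elim_inl, Sum.elim_inr, smul_zero, Finset.sum_const_zero, add_zero]
    exact Finset.sum_congr rfl fun b _ => (map_smul p _ _).symm
  have hneg : ∀ {x : X.ι → R}, X.Hom (0 - 1) x → x = 0 := by
    intro x hx
    exact eq_zero_of_sup hx fun a => by
      have := hX.nonneg a
      omega
  refine ⟨?_, ?_, ?_, ?_, ?_⟩
  · rintro (b | a)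
    · exact hY.nonneg b
    · have := hX.nonneg a
      show 0 ≤ X.deg a + 1
      omega
  · rintro k hk v ⟨hv, hv0⟩
    obtain ⟨y, x, rfl⟩ := cone_vec h v
    rw [cone_hom] at hv
    rw [cone_D] at hv0
    have e1 : x ᵥ* X.D = 0 := by
      funext a
      have := congrFun hv0 (Sum.inr a)
      simpa using this
    have e2 : y ᵥ* Y.D + x ᵥ* F = 0 := by
      funext a
      exact congrFun hv0 (Sum.inl a)
    obtain ⟨hy, hx⟩ := hv
    have hx' : ∃ x', X.Hom k x' ∧ x' ᵥ* X.D = x := by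
      rcases lt_or_eq_of_le (show 1 ≤ k by omega) with h1 | h1
      · obtain ⟨x', h2, h3⟩ := hX.exact (k - 1) (by omega) x ⟨hx, e1⟩
        rw [sub_add_cancel] at h2
        exact ⟨x', h2, h3⟩
      · subst h1
        have hx0 : X.Hom 0 x := by simpa using hx
        refine hX.ker x hx0 ?_
        apply hg
        rw [map_zero, ← hF x hx0]
        have e3 : x ᵥ* F = (-y) ᵥ* Y.D := by
          rw [neg_vecMul]
          exact eq_neg_of_add_eq_zero_right e2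
        rw [e3]
        exact hY.aug _ (sup_neg hy)
    obtain ⟨x', hx1, hx2⟩ := hx'
    have hs : Y.Hom k (y + x' ᵥ* F) := by
      have := sup_vecMul (hd_map h) hx1
      rw [add_zero] at this
      exact sup_add hy this
    have hz : (y + x' ᵥ* F) ᵥ* Y.D = 0 := by
      rw [add_vecMul, vecMul_vecMul, ← h.comm, ← vecMul_vecMul, hx2]
      exact e2
    obtain ⟨y', hy1, hy2⟩ := hY.exact k hk _ ⟨hs, hz⟩
    refine ⟨Sum.elim y' (-x'), ?_, ?_⟩
    · rw [cone_hom]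
      refine ⟨hy1, ?_⟩
      rw [add_sub_cancel_right]
      exact sup_neg hx1
    · rw [cone_D, neg_vecMul, neg_vecMul, neg_neg, hx2, hy2]
      congr 1
      abel
  · intro w hw
    obtain ⟨y, x, rfl⟩ := cone_vec h w
    rw [cone_hom] at hw
    rw [cone_D, hev, map_add, map_add]
    have hx0 : X.Hom 0 x := by simpa using hw.2
    rw [hF x hx0, hY.aug y hw.1, map_zero, zero_add]
    exact (hpg _).2 ⟨_, rfl⟩
  · intro v hv hv0
    obtain ⟨y, x, rfl⟩ := cone_vec h v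
    rw [cone_hom] at hv
    rw [hev] at hv0
    obtain ⟨k, hk⟩ := (hpg _).1 hv0
    obtain ⟨x0, hx1, hx2⟩ := hX.surj k
    have hs : Y.Hom 0 (y - x0 ᵥ* F) := by
      have := sup_vecMul (hd_map h) hx1
      rw [add_zero] at this
      exact sup_sub hv.1 this
    have h0 : ev δ (y - x0 ᵥ* F) = 0 := by
      rw [map_sub, hF x0 hx1, hx2, hk, sub_self]
    obtain ⟨y', hy1, hy2⟩ := hY.ker _ hs h0
    refine ⟨Sum.elim y' x0, ?_, ?_⟩
    · rw [cone_hom]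
      exact ⟨hy1, by simpa using hx1⟩
    · rw [cone_D, hy2, (mem_Z_zero hX.nonneg hx1).2, hneg hv.2]
      congr 1
      · abel
      · simp
  · intro n
    obtain ⟨l, rfl⟩ := hp n
    obtain ⟨y, hy1, hy2⟩ := hY.surj l
    refine ⟨Sum.elim y 0, ?_, ?_⟩
    · rw [cone_hom]
      exact ⟨hy1, sup_zero _ _⟩
    · rw [hev, hy2]

end

section star

variable {R : Type} [Ring R] [StarRing R] {X Y : FC R} {F : Matrix X.ι Y.ι R}

theorem coex_neg {X : FC R} (hX : ∀ a, 0 ≤ X.deg a) {i : ℤ} (hi : i < 0) : X.CoEx i := by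
  intro v hv _
  refine ⟨0, sup_zero _ _, ?_⟩
  rw [zero_vecMul]
  exact (eq_zero_of_sup hv fun a => by have := hX a; omega).symm

theorem cone_Dh (h : IsMap X Y F) (y : Y.ι → R) (x : X.ι → R) :
    (Sum.elim y x : Y.ι ⊕ X.ι → R) ᵥ* (FC.cone X Y F h).Dᴴ =
      Sum.elim (y ᵥ* Y.Dᴴ) (y ᵥ* Fᴴ - x ᵥ* X.Dᴴ) := by
  show (Sum.elim y x : Y.ι ⊕ X.ι → R) ᵥ* (fromBlocks Y.D 0 F (-X.D))ᴴ = _
  rw [fromBlocks_conjTranspose, Matrix.vecMul_fromBlocks]
  simp [vecMul_neg, sub_eq_add_neg]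

theorem cone_coex_a (h : IsMap X Y F) {i : ℤ} (hY : Y.CoEx i) (hX : X.CoEx (i - 1)) :
    (FC.cone X Y F h).CoEx i := by
  intro v hv hv0
  obtain ⟨y, x, rfl⟩ := cone_vec h v
  rw [cone_hom] at hv
  rw [cone_Dh] at hv0
  have e1 : y ᵥ* Fᴴ - x ᵥ* X.Dᴴ = 0 := funext fun a => congrFun hv0 (Sum.inr a)
  have e2 : y ᵥ* Y.Dᴴ = 0 := funext fun a => congrFun hv0 (Sum.inl a)
  obtain ⟨z, hz, hz0⟩ := hY y hv.1 e2
  have hs : X.Hom (i - 1) (z ᵥ* Fᴴ - x) := sup_sub (sup_Fh h hz) hv.2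
  have h0 : (z ᵥ* Fᴴ - x) ᵥ* X.Dᴴ = 0 := by
    rw [sub_vecMul, vecMul_vecMul, ← Dh_Fh h, ← vecMul_vecMul, hz0]
    exact e1
  obtain ⟨u, hu, hu0⟩ := hX _ hs h0
  refine ⟨Sum.elim z u, ?_, ?_⟩
  · rw [cone_hom]
    exact ⟨hz, hu⟩
  · rw [cone_Dh, hu0, hz0]
    congr 1
    abel

theorem cone_inj (h : IsMap X Y F) {i : ℤ} (hC : (FC.cone X Y F h).CoEx i) {y : Y.ι → R}
    (hy : Y.Hom i y) (hy0 : y ᵥ* Y.Dᴴ = 0) {x : X.ι → R} (hx : X.Hom (i - 1) x)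
    (hx0 : x ᵥ* X.Dᴴ = y ᵥ* Fᴴ) : ∃ w, Y.Hom (i - 1) w ∧ w ᵥ* Y.Dᴴ = y := by
  have h0 : (Sum.elim y x : Y.ι ⊕ X.ι → R) ᵥ* (FC.cone X Y F h).Dᴴ = 0 := by
    rw [cone_Dh, hx0, hy0, sub_self]
    funext a
    rcases a with a | a <;> rfl
  obtain ⟨w, hw, hw0⟩ := hC _ ((cone_hom h i y x).2 ⟨hy, hx⟩) h0
  obtain ⟨z, u, rfl⟩ := cone_vec h w
  rw [cone_hom] at hw
  rw [cone_Dh] at hw0
  exact ⟨z, hw.1, funext fun a => congrFun hw0 (Sum.inl a)⟩

theorem cone_coex_b (h : IsMap X Y F) {i : ℤ} (hC : (FC.cone X Y F h).CoEx i)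
    (hX : X.CoEx i) : Y.CoEx i := by
  intro y hy hy0
  obtain ⟨x, hx, hx0⟩ := hX (y ᵥ* Fᴴ) (sup_Fh h hy) (by
    rw [vecMul_vecMul, ← Dh_Fh h, ← vecMul_vecMul, hy0, zero_vecMul])
  exact cone_inj h hC hy hy0 hx hx0

theorem cone_coex_c (h : IsMap X Y F) {i : ℤ} (hY : Y.CoEx i)
    (hC : (FC.cone X Y F h).CoEx (i + 1)) : X.CoEx i := by
  intro x hx hx0
  have h0 : (Sum.elim 0 x : Y.ι ⊕ X.ι → R) ᵥ* (FC.cone X Y F h).Dᴴ = 0 := by
    rw [cone_Dh, hx0, zero_vecMul, zero_vecMul, sub_zero]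
    funext a
    rcases a with a | a <;> rfl
  have hs : (FC.cone X Y F h).Hom (i + 1) (Sum.elim 0 x) := by
    rw [cone_hom, add_sub_cancel_right]
    exact ⟨sup_zero _ _, hx⟩
  obtain ⟨w, hw, hw0⟩ := hC _ hs h0
  obtain ⟨z, u, rfl⟩ := cone_vec h w
  rw [cone_hom, add_sub_cancel_right] at hw
  rw [cone_Dh] at hw0
  have e1 : z ᵥ* Fᴴ - u ᵥ* X.Dᴴ = x := funext fun a => congrFun hw0 (Sum.inr a)
  have e2 : z ᵥ* Y.Dᴴ = 0 := funext fun a => congrFun hw0 (Sum.inl a)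
  obtain ⟨t, ht, ht0⟩ := hY z hw.1 e2
  refine ⟨t ᵥ* Fᴴ - u, sup_sub (sup_Fh h ht) hw.2, ?_⟩
  rw [sub_vecMul, vecMul_vecMul, ← Dh_Fh h, ← vecMul_vecMul, ht0, ← e1]

end star

end Pool.Agent.H42.UR
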