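import Pool.Agent.H19.UR.Def

/-!
# Homogeneous vectors of a finite complex (block (4) of Theorem U, module Bas)

Row vectors `v : X.ι → R`, the component `pj X i v` of degree `i`, homogeneous matrices.
-/

set_option autoImplicit false

namespace Pool.Agent.H42.UR

open Matrix Pool.Agent.H16.UN Pool.Agent.H19.UR

section

variable {R : Type} [Ring R]

/-- the component of degree `i` -/
def pj (X : FC R) (i : ℤ) (v : X.ι → R) : X.ι → R := fun a => if X.deg a = i then v a else 0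

theorem sup_pj (X : FC R) (i : ℤ) (v : X.ι → R) : X.Hom i (pj X i v) := by
  intro a h
  by_contra h1
  exact h (by simp [pj, h1])

theorem pj_of_sup {X : FC R} {i : ℤ} {v : X.ι → R} (h : X.Hom i v) : pj X i v = v := by
  funext a
  unfold pj
  split_ifs with h1
  · rfl
  · by_contra h2
    exact h1 (h a (Ne.symm h2))

theorem sup_zero (X : FC R) (i : ℤ) : X.Hom i 0 := fun _ h => absurd rfl h

theorem sup_add {X : FC R} {i : ℤ} {v w : X.ι → R} (hv : X.Hom i v) (hw : X.Hom i w) :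
    X.Hom i (v + w) := by
  intro a h
  by_cases h1 : v a = 0
  · exact hw a fun h2 => h (by simp [h1, h2])
  · exact hv a h1

theorem sup_neg {X : FC R} {i : ℤ} {v : X.ι → R} (hv : X.Hom i v) : X.Hom i (-v) :=
  fun a h => hv a fun h1 => h (by simp [h1])

theorem sup_sub {X : FC R} {i : ℤ} {v w : X.ι → R} (hv : X.Hom i v) (hw : X.Hom i w) :
    X.Hom i (v - w) := by
  rw [sub_eq_add_neg]
  exact sup_add hv (sup_neg hw)

theorem sup_smul {X : FC R} {i : ℤ} (r : R) {v : X.ι → R} (hv : X.Hom i v) :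
    X.Hom i (r • v) := fun a h => hv a fun h1 => h (by simp [h1])

theorem sup_sum {X : FC R} {i : ℤ} {κ : Type*} (s : Finset κ) {v : κ → X.ι → R}
    (hv : ∀ k ∈ s, X.Hom i (v k)) : X.Hom i (∑ k ∈ s, v k) := by
  intro a h
  rw [Finset.sum_apply] at h
  obtain ⟨k, hk, h1⟩ := Finset.exists_ne_zero_of_sum_ne_zero h
  exact hv k hk a h1

theorem sup_single (X : FC R) (a : X.ι) (r : R) : X.Hom (X.deg a) (Pi.single a r) := by
  intro b h
  by_cases hb : b = a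
  · rw [hb]
  · exact absurd (Pi.single_eq_of_ne (M := fun _ => R) hb r) h

theorem eq_zero_of_sup {X : FC R} {i : ℤ} {v : X.ι → R} (hv : X.Hom i v)
    (h : ∀ a, X.deg a ≠ i) : v = 0 := by
  funext a
  by_contra h1
  exact h a (hv a h1)

/-- `M` is homogeneous of degree `c` as a map `X → Y` -/
def HD (X Y : FC R) (c : ℤ) (M : Matrix X.ι Y.ι R) : Prop :=
  ∀ a b, M a b ≠ 0 → Y.deg b = X.deg a + c

theorem hd_D (X : FC R) : HD X X (-1) X.D := fun a b h => by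
  have := X.hdeg a b h
  omega

theorem hd_map {X Y : FC R} {F : Matrix X.ι Y.ι R} (h : IsMap X Y F) : HD X Y 0 F :=
  fun a b hab => by rw [h.hom a b hab, add_zero]

theorem sup_vecMul {X Y : FC R} {c : ℤ} {M : Matrix X.ι Y.ι R} (hM : HD X Y c M) {i : ℤ}
    {v : X.ι → R} (hv : X.Hom i v) : Y.Hom (i + c) (v ᵥ* M) := by
  intro b hb
  have h1 : ∑ a, v a * M a b ≠ 0 := hb
  obtain ⟨a, -, ha⟩ := Finset.exists_ne_zero_of_sum_ne_zero h1
  rw [hM a b (right_ne_zero_of_mul ha), hv a (left_ne_zero_of_mul ha)]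

theorem pj_vecMul {X Y : FC R} {c : ℤ} {M : Matrix X.ι Y.ι R} (hM : HD X Y c M) (i : ℤ)
    (v : X.ι → R) : pj X i v ᵥ* M = pj Y (i + c) (v ᵥ* M) := by
  funext b
  have e1 : (pj X i v ᵥ* M) b = ∑ a, pj X i v a * M a b := rfl
  have e2 : pj Y (i + c) (v ᵥ* M) b = if Y.deg b = i + c then ∑ a, v a * M a b else 0 := rfl
  rw [e1, e2]
  split_ifs with h
  · refine Finset.sum_congr rfl fun a _ => ?_
    by_cases h1 : M a b = 0
    · rw [h1, mul_zero, mul_zero]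
    · have := hM a b h1
      have h2 : X.deg a = i := by omega
      unfold pj
      rw [if_pos h2]
  · refine Finset.sum_eq_zero fun a _ => ?_
    by_cases h1 : M a b = 0
    · rw [h1, mul_zero]
    · have := hM a b h1
      have h2 : ¬ X.deg a = i := by omega
      unfold pj
      rw [if_neg h2, zero_mul]

theorem sup_D {X : FC R} {i : ℤ} {v : X.ι → R} (hv : X.Hom i v) : X.Hom (i - 1) (v ᵥ* X.D) :=
  sup_vecMul (hd_D X) hv

theorem vD_D (X : FC R) (v : X.ι → R) : v ᵥ* X.D ᵥ* X.D = 0 := by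
  rw [vecMul_vecMul, X.hD, vecMul_zero]

theorem bd_of_eq {X : FC R} {i : ℤ} {v w : X.ι → R} (hv : X.Hom i v) (h : w ᵥ* X.D = v) :
    X.Bd i v := by
  refine ⟨pj X (i + 1) w, sup_pj _ _ _, ?_⟩
  rw [pj_vecMul (hd_D X), h]
  have : i + 1 + -1 = i := by ring
  rw [this, pj_of_sup hv]

theorem bd_zero (X : FC R) (i : ℤ) : X.Bd i 0 := ⟨0, sup_zero _ _, zero_vecMul _⟩

theorem bd_add {X : FC R} {i : ℤ} {v w : X.ι → R} (hv : X.Bd i v) (hw : X.Bd i w) :
    X.Bd i (v + w) := by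
  obtain ⟨a, ha, rfl⟩ := hv
  obtain ⟨b, hb, rfl⟩ := hw
  exact ⟨a + b, sup_add ha hb, add_vecMul _ _ _⟩

theorem bd_smul {X : FC R} {i : ℤ} (r : R) {v : X.ι → R} (hv : X.Bd i v) : X.Bd i (r • v) := by
  obtain ⟨a, ha, rfl⟩ := hv
  exact ⟨r • a, sup_smul r ha, smul_vecMul _ _ _⟩

theorem bd_neg {X : FC R} {i : ℤ} {v : X.ι → R} (hv : X.Bd i v) : X.Bd i (-v) := by
  obtain ⟨a, ha, rfl⟩ := hv
  exact ⟨-a, sup_neg ha, neg_vecMul _ _⟩

theorem bd_sub {X : FC R} {i : ℤ} {v w : X.ι → R} (hv : X.Bd i v) (hw : X.Bd i w) :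
    X.Bd i (v - w) := by
  rw [sub_eq_add_neg]
  exact bd_add hv (bd_neg hw)

theorem bd_hom {X : FC R} {i : ℤ} {v : X.ι → R} (hv : X.Bd i v) : X.Hom i v := by
  obtain ⟨a, ha, rfl⟩ := hv
  have := sup_D ha
  rwa [add_sub_cancel_right] at this

theorem bd_cyc {X : FC R} {i : ℤ} {v : X.ι → R} (hv : X.Bd i v) : X.Cyc i v := by
  refine ⟨bd_hom hv, ?_⟩
  obtain ⟨a, -, rfl⟩ := hv
  exact vD_D X a

/-- the differential of a homogeneous component -/
theorem D_pj (X : FC R) (i : ℤ) (v : X.ι → R) :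
    pj X i v ᵥ* X.D = pj X (i - 1) (v ᵥ* X.D) := pj_vecMul (hd_D X) i v

/-- an upper bound of the degrees -/
theorem deg_bdd (X : FC R) (k : ℤ) : ∃ N : ℕ, ∀ a, X.deg a ≤ k + N := by
  obtain ⟨B, hB⟩ := (Set.finite_range X.deg).bddAbove
  refine ⟨(B - k).toNat, fun a => ?_⟩
  have h1 : X.deg a ≤ B := hB ⟨a, rfl⟩
  have h2 := Int.self_le_toNat (B - k)
  omega

end

section star

variable {R : Type} [Ring R] [StarRing R]

theorem hd_star {X Y : FC R} {c : ℤ} {M : Matrix X.ι Y.ι R} (hM : HD X Y c M) :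
    HD Y X (-c) Mᴴ := by
  intro b a h
  have h1 : M a b ≠ 0 := fun h0 => h (by simp [h0])
  have := hM a b h1
  omega

theorem sup_Dh {X : FC R} {i : ℤ} {v : X.ι → R} (hv : X.Hom i v) :
    X.Hom (i + 1) (v ᵥ* X.Dᴴ) := by
  have h := hd_star (hd_D X)
  rw [neg_neg] at h
  exact sup_vecMul h hv

theorem hd_Dh (X : FC R) : HD X X 1 X.Dᴴ := by
  have h := hd_star (hd_D X)
  rwa [neg_neg] at h

theorem sup_Fh {X Y : FC R} {F : Matrix X.ι Y.ι R} (h : IsMap X Y F) {i : ℤ} {v : Y.ι → R}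
    (hv : Y.Hom i v) : X.Hom i (v ᵥ* Fᴴ) := by
  have := sup_vecMul (hd_star (hd_map h)) hv
  rwa [neg_zero, add_zero] at this

theorem DhDh (X : FC R) : X.Dᴴ * X.Dᴴ = 0 := by
  rw [← conjTranspose_mul, X.hD, conjTranspose_zero]

theorem Dh_Fh {X Y : FC R} {F : Matrix X.ι Y.ι R} (h : IsMap X Y F) :
    Y.Dᴴ * Fᴴ = Fᴴ * X.Dᴴ := by
  rw [← conjTranspose_mul, ← conjTranspose_mul, h.comm]

theorem cobd_of_eq {X : FC R} {i : ℤ} {v w : X.ι → R} (hv : X.Hom i v) (h : w ᵥ* X.Dᴴ = v) :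
    ∃ w, X.Hom (i - 1) w ∧ w ᵥ* X.Dᴴ = v := by
  refine ⟨pj X (i - 1) w, sup_pj _ _ _, ?_⟩
  rw [pj_vecMul (hd_Dh X), h]
  have : i - 1 + 1 = i := by ring
  rw [this, pj_of_sup hv]

end star

end Pool.Agent.H42.UR
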