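import Pool.Agent.H42.UR.Res

/-!
# Independence of the resolution (block (4) of Theorem U, module Coh)
-/

set_option autoImplicit false

namespace Pool.Agent.H42.UR

open Matrix Pool.Agent.H16.UN Pool.Agent.H19.UR

variable {R : Type} [Ring R] [StarRing R]

theorem cocyc_F {X Y : FC R} {F : Matrix X.ι Y.ι R} (h : IsMap X Y F) {i : ℤ} {v : Y.ι → R}
    (hv : v ∈ Zc Y i) : v ᵥ* Fᴴ ∈ Zc X i :=
  ⟨sup_Fh h hv.1, by rw [vecMul_vecMul, ← Dh_Fh h, ← vecMul_vecMul, hv.2, zero_vecMul]⟩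

theorem cobd_F {X Y : FC R} {F : Matrix X.ι Y.ι R} (h : IsMap X Y F) {i : ℤ} {v : Y.ι → R}
    (hv : v ∈ Bc Y i) : v ᵥ* Fᴴ ∈ Bc X i := by
  obtain ⟨w, hw, rfl⟩ := hv
  exact ⟨w ᵥ* Fᴴ, sup_Fh h hw, by rw [vecMul_vecMul, ← Dh_Fh h, ← vecMul_vecMul]⟩

/-- for a retract up to homotopy `F G ≃ 1` the composition on cocycles is the identity modulo
coboundaries -/
theorem Retr.codiff {X Y : FC R} {F : Matrix X.ι Y.ι R} {G : Matrix Y.ι X.ι R}
    (h : Retr X Y F G) {i : ℤ} {v : X.ι → R} (hv : v ∈ Zc X i) :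
    v ᵥ* Gᴴ ᵥ* Fᴴ - v ∈ Bc X i := by
  obtain ⟨H, h1, h2⟩ := h.htpy
  have e0 : Gᴴ * Fᴴ = 1 + (X.Dᴴ * Hᴴ + Hᴴ * X.Dᴴ) := by
    rw [← conjTranspose_mul, h2]
    simp only [conjTranspose_add, conjTranspose_mul, conjTranspose_one]
    abel
  have e : v ᵥ* Gᴴ ᵥ* Fᴴ - v = (v ᵥ* Hᴴ) ᵥ* X.Dᴴ := by
    rw [vecMul_vecMul, e0, vecMul_add, vecMul_one, vecMul_add, ← vecMul_vecMul, hv.2,
      zero_vecMul, zero_add, vecMul_vecMul]
    abel
  rw [e]
  refine ⟨v ᵥ* Hᴴ, ?_, rfl⟩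
  have := sup_vecMul (hd_star h1) hv.1
  rwa [← sub_eq_add_neg] at this

theorem Retr.coEx {X Y : FC R} {F : Matrix X.ι Y.ι R} {G : Matrix Y.ι X.ι R}
    (h : Retr X Y F G) {i : ℤ} (hY : Y.CoEx i) : X.CoEx i := by
  intro v hv hv0
  have h0 : v ∈ Zc X i := ⟨hv, hv0⟩
  have h1 := cocyc_F h.hG h0
  have h2 : v ᵥ* Gᴴ ∈ Bc Y i := hY _ h1.1 h1.2
  have h3 := (Bc X i).sub_mem (cobd_F h.hF h2) (h.codiff h0)
  rw [sub_sub_cancel] at h3
  exact h3

/-- independence of the resolution -/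
theorem coex_iff {K : Type} [AddCommGroup K] [Module R K] {X X' : FC R} {ε : X.ι → K}
    {ε' : X'.ι → K} (h : IsRes X ε) (h' : IsRes X' ε') (i : ℤ) : X.CoEx i ↔ X'.CoEx i := by
  obtain ⟨F, G, h1, h2⟩ := res_retr h h'
  exact ⟨h2.coEx, h1.coEx⟩

/-- a resolution can be transported along a linear equivalence -/
theorem res_equiv {K L : Type} [AddCommGroup K] [Module R K] [AddCommGroup L] [Module R L]
    {X : FC R} {ε : X.ι → K} (hX : IsRes X ε) (e : K ≃ₗ[R] L) : IsRes X (fun a => e (ε a)) := by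
  have hev : ∀ v : X.ι → R, ev (fun a => e (ε a)) v = e (ev ε v) := fun v => by
    rw [ev_apply, ev_apply, map_sum]
    exact Finset.sum_congr rfl fun a _ => (map_smul e _ _).symm
  refine ⟨hX.nonneg, hX.exact, ?_, ?_, ?_⟩
  · intro w hw
    rw [hev, hX.aug w hw, map_zero]
  · intro v hv h0
    rw [hev] at h0
    exact hX.ker v hv (e.injective (by rw [h0, map_zero]))
  · intro x
    obtain ⟨v, hv, h0⟩ := hX.surj (e.symm x)
    exact ⟨v, hv, by rw [hev, h0, e.apply_symm_apply]⟩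

theorem gr_equiv {K L : Type} [AddCommGroup K] [Module R K] [AddCommGroup L] [Module R L]
    {j : ℕ} (h : Gr R j K) (e : K ≃ₗ[R] L) : Gr R j L := by
  obtain ⟨X, ε, hX, h1⟩ := h
  exact ⟨X, _, res_equiv hX e, h1⟩

/-- independence of the resolution, for the condition on the cohomology of the dual -/
theorem le_coh {K : Type} [AddCommGroup K] [Module R K] {X X' : FC R} {ε : X.ι → K}
    {ε' : X'.ι → K} (h : IsRes X ε) (h' : IsRes X' ε') (i : ℤ) (q : ℕ)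
    (hle : Le q (Bc X i) (Zc X i)) : Le q (Bc X' i) (Zc X' i) := by
  obtain ⟨F, G, h1, h2⟩ := res_retr h h'
  intro K' hK' hKZ
  have hsub : K'.map (Matrix.vecMulLinear Fᴴ) ≤ Zc X i := by
    rintro _ ⟨v, hv, rfl⟩
    exact cocyc_F h1.hF (hKZ hv)
  have hg := hle _ (hK'.map _) hsub
  refine gr_equiv hg (LinearEquiv.symm ?_)
  refine LinearEquiv.ofBijective (Submodule.mapQ _ _
    ((Matrix.vecMulLinear Fᴴ).restrict (p := K') (q := K'.map (Matrix.vecMulLinear Fᴴ))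
      fun v hv => ⟨v, hv, rfl⟩) ?_) ⟨?_, ?_⟩
  · rintro ⟨v, hv⟩ hb
    exact cobd_F h1.hF hb
  · rw [← LinearMap.ker_eq_bot, Submodule.ker_mapQ, eq_bot_iff]
    rintro _ ⟨⟨v, hv⟩, hb, rfl⟩
    have hb' : v ᵥ* Fᴴ ∈ Bc X i := hb
    have h3 := (Bc X' i).sub_mem (cobd_F h2.hF hb') (h2.codiff (hKZ hv))
    rw [sub_sub_cancel] at h3
    exact (Submodule.Quotient.mk_eq_zero _).2 h3
  · intro y
    obtain ⟨⟨_, v, hv, rfl⟩, rfl⟩ := Submodule.Quotient.mk_surjective _ y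
    exact ⟨Submodule.Quotient.mk ⟨v, hv⟩, rfl⟩

end Pool.Agent.H42.UR
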