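import Pool.Agent.H42.UR.Cone

/-!
# Grade: extensions, quotients, twists (block (4) of Theorem U, module Gra)
-/

set_option autoImplicit false

namespace Pool.Agent.H42.UR

open Matrix Pool.Agent.H16.UN Pool.Agent.H19.UR

section res

variable {R : Type} [Ring R]

/-- a module with a resolution is finitely generated -/
theorem res_finite {K : Type} [AddCommGroup K] [Module R K] {X : FC R} {ε : X.ι → K}
    (hX : IsRes X ε) : Module.Finite R K := by
  have hs : Function.Surjective (ev ε) := fun x => by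
    obtain ⟨v, -, h⟩ := hX.surj x
    exact ⟨v, h⟩
  exact Module.Finite.of_surjective (ev ε) hs

/-- twisting a resolution by an automorphism of the ring -/
theorem res_twist {K L : Type} [AddCommGroup K] [Module R K] [AddCommGroup L] [Module R L]
    {X : FC R} {ε : X.ι → K} (hX : IsRes X ε) (τ : R ≃+* R) (e : K ≃+ L)
    (he : ∀ (r : R) (x : K), e (r • x) = τ r • e x) :
    IsRes (X.map (τ : R →+* R)) (fun a => e (ε a) : X.ι → L) := by
  have hvec : ∀ v : X.ι → R, (fun a => τ (v a)) ᵥ* (X.map (τ : R →+* R)).D =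
      fun b => τ ((v ᵥ* X.D) b) := by
    intro v
    funext b
    show ∑ a, τ (v a) * τ (X.D a b) = τ (∑ a, v a * X.D a b)
    rw [map_sum]
    exact Finset.sum_congr rfl fun a _ => (map_mul τ _ _).symm
  have hev : ∀ v : X.ι → R, ev (fun a => e (ε a) : X.ι → L) (fun a => τ (v a)) = e (ev ε v) := by
    intro v
    rw [ev_apply, ev_apply, map_sum]
    exact Finset.sum_congr rfl fun a _ => (he _ _).symm
  have hinv : ∀ v : X.ι → R, (fun a => τ ((fun b => τ.symm (v b)) a)) = v := by
    intro v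
    funext a
    exact τ.apply_symm_apply _
  have hhom : ∀ (k : ℤ) (v : X.ι → R), X.Hom k v → (X.map (τ : R →+* R)).Hom k
      (fun a => τ (v a)) := by
    intro k v hv a ha
    exact hv a fun h0 => ha (by simp [h0])
  have hhom' : ∀ (k : ℤ) (v : X.ι → R), (X.map (τ : R →+* R)).Hom k v →
      X.Hom k (fun a => τ.symm (v a)) := by
    intro k v hv a ha
    exact hv a fun h0 => ha (by simp [h0])
  have hker : ∀ v : X.ι → R, v ᵥ* (X.map (τ : R →+* R)).D = 0 →
      (fun a => τ.symm (v a)) ᵥ* X.D = 0 := by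
    intro v hv
    have h1 := hvec (fun a => τ.symm (v a))
    rw [hinv v, hv] at h1
    funext b
    have h2 := congrFun h1 b
    apply τ.injective
    rw [Pi.zero_apply, map_zero]
    exact h2.symm
  refine ⟨hX.nonneg, ?_, ?_, ?_, ?_⟩
  · rintro k hk v ⟨hv, hv0⟩
    obtain ⟨w, hw, hw0⟩ := hX.exact k hk _ ⟨hhom' k v hv, hker v hv0⟩
    refine ⟨fun a => τ (w a), hhom _ _ hw, ?_⟩
    rw [hvec, hw0]
    exact hinv v
  · intro w hw
    have h1 := hX.aug _ (hhom' 1 w hw)
    have h2 := hvec (fun a => τ.symm (w a))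
    rw [hinv w] at h2
    rw [h2, hev, h1, map_zero]
  · intro v hv h0
    have h1 := hev (fun a => τ.symm (v a))
    rw [hinv v] at h1
    rw [h1] at h0
    have h2 : ev ε (fun a => τ.symm (v a)) = 0 := by
      apply e.injective
      rw [h0, map_zero]
    obtain ⟨w, hw, hw0⟩ := hX.ker _ (hhom' 0 v hv) h2
    refine ⟨fun a => τ (w a), hhom _ _ hw, ?_⟩
    rw [hvec, hw0]
    exact hinv v
  · intro x
    obtain ⟨v, hv, h0⟩ := hX.surj (e.symm x)
    exact ⟨fun a => τ (v a), hhom 0 v hv, by rw [hev, h0, e.apply_symm_apply]⟩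

/-- every complex in degrees `≥ 0`, exact in degrees `> 0`, is a resolution -/
theorem res_self (Y : FC R) (h0 : ∀ a, 0 ≤ Y.deg a) (h1 : ∀ k, 0 < k → Y.Ex k) :
    ∃ (N : Type) (_ : AddCommGroup N) (_ : Module R N) (ε : Y.ι → N),
      IsRes Y ε ∧ Module.Finite R N := by
  -- the submodule of vectors whose degree `0` part is a boundary
  let B : Submodule R (Y.ι → R) :=
    { carrier := {v | Y.Bd 0 (pj Y 0 v)}
      add_mem' := by
        intro v w hv hw
        have e : pj Y 0 (v + w) = pj Y 0 v + pj Y 0 w := by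
          funext a
          unfold pj
          by_cases h : Y.deg a = 0 <;> simp [h]
        show Y.Bd 0 (pj Y 0 (v + w))
        rw [e]
        exact bd_add hv hw
      zero_mem' := by
        have e : pj Y 0 (0 : Y.ι → R) = 0 := pj_of_sup (sup_zero _ _)
        show Y.Bd 0 (pj Y 0 0)
        rw [e]
        exact bd_zero _ _
      smul_mem' := by
        intro r v hv
        have e : pj Y 0 (r • v) = r • pj Y 0 v := by
          funext a
          unfold pj
          by_cases h : Y.deg a = 0 <;> simp [h]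
        show Y.Bd 0 (pj Y 0 (r • v))
        rw [e]
        exact bd_smul r hv }
  have hB : ∀ v, v ∈ B ↔ Y.Bd 0 (pj Y 0 v) := fun v => Iff.rfl
  have hev : ∀ v : Y.ι → R, ev (fun a => B.mkQ (Pi.single a 1)) v = B.mkQ v := by
    intro v
    rw [ev_apply]
    have e : v = ∑ a, v a • (Pi.single a (1 : R) : Y.ι → R) := by
      have := pi_eq_sum_univ' v
      exact this
    conv_rhs => rw [e]
    rw [map_sum]
    exact Finset.sum_congr rfl fun a _ => (map_smul _ _ _).symm
  have hres : IsRes Y (fun a => B.mkQ (Pi.single a 1)) := by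
    refine ⟨h0, h1, ?_, ?_, ?_⟩
    · intro w hw
      rw [hev]
      refine (Submodule.Quotient.mk_eq_zero _).2 ((hB _).2 ?_)
      have h2 : Y.Hom 0 (w ᵥ* Y.D) := by
        have := sup_D hw
        simpa using this
      rw [pj_of_sup h2]
      exact ⟨w, by simpa using hw, rfl⟩
    · intro v hv h2
      rw [hev] at h2
      have h3 := (hB v).1 ((Submodule.Quotient.mk_eq_zero _).1 h2)
      rwa [pj_of_sup hv] at h3
    · intro x
      obtain ⟨v, rfl⟩ := B.mkQ_surjective x
      refine ⟨pj Y 0 v, sup_pj _ _ _, ?_⟩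
      rw [hev]
      refine (Submodule.Quotient.eq _).2 ((hB _).2 ?_)
      have e : pj Y 0 (pj Y 0 v - v) = 0 := by
        funext a
        unfold pj
        by_cases h : Y.deg a = 0 <;> simp [h]
      rw [e]
      exact bd_zero _ _
  exact ⟨(Y.ι → R) ⧸ B, inferInstance, inferInstance, _, hres, res_finite hres⟩

end res

section grade

variable {R : Type} [Ring R] [StarRing R] {K L N : Type} [AddCommGroup K] [Module R K]
  [AddCommGroup L] [Module R L] [AddCommGroup N] [Module R N]

/-- the grade may be computed with any resolution -/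
theorem gr_all {j : ℕ} (h : Gr R j K) {X : FC R} {ε : X.ι → K} (hX : IsRes X ε) (i : ℤ)
    (hi : i < j) : X.CoEx i := by
  obtain ⟨Y, η, hY, h1⟩ := h
  exact (coex_iff hY hX i).1 (h1 i hi)

/-- quotient -/
theorem gr_quot {j : ℕ} (f : K →ₗ[R] L) (g : L →ₗ[R] N) (hf : Function.Injective f)
    (hg : Function.Surjective g) (hfg : ∀ x, g x = 0 ↔ ∃ y, f y = x) (hK : Gr R j K)
    (hL : Gr R j L) : Gr R j N := by
  obtain ⟨X, ε, hX, h1⟩ := hK
  obtain ⟨Y, η, hY, h2⟩ := hL
  obtain ⟨F, hF, hF0⟩ := lift_lin hX hY f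
  exact ⟨_, _, cone_res hX hY hF hF0 hf hg hfg, fun i hi =>
    cone_coex_a hF (h2 i hi) (h1 (i - 1) (by omega))⟩

/-- extension, with a given resolution of the module in the middle -/
theorem gr_ext' {j : ℕ} (f : K →ₗ[R] L) (g : L →ₗ[R] N) (hf : Function.Injective f)
    (hg : Function.Surjective g) (hfg : ∀ x, g x = 0 ↔ ∃ y, f y = x) (hK : Gr R j K)
    (hN : Gr R j N) (hL : ∃ (Y : FC R) (η : Y.ι → L), IsRes Y η) : Gr R j L := by
  obtain ⟨X, ε, hX, h1⟩ := hK
  obtain ⟨Y, η, hY⟩ := hL
  obtain ⟨F, hF, hF0⟩ := lift_lin hX hY f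
  have hC := cone_res hX hY hF hF0 hf hg hfg
  exact ⟨Y, η, hY, fun i hi => cone_coex_b hF (gr_all hN hC i hi) (h1 i hi)⟩

theorem gr_zero (j : ℕ) [Subsingleton K] : Gr R j K := by
  refine ⟨FC.zero R, fun _ => 0, ⟨fun a => a.elim, ?_, ?_, ?_, ?_⟩, ?_⟩
  · intro k _ v _
    exact ⟨0, sup_zero _ _, funext fun a => a.elim⟩
  · intro w _
    exact Subsingleton.elim _ _
  · intro v _ _
    exact ⟨0, sup_zero _ _, funext fun a => a.elim⟩
  · intro x
    exact ⟨0, sup_zero _ _, Subsingleton.elim _ _⟩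
  · intro i _ v _ _
    exact ⟨0, sup_zero _ _, funext fun a => a.elim⟩

/-- twisting by an automorphism of the ring with involution -/
theorem gr_twist {j : ℕ} (h : Gr R j K) (τ : R ≃+* R) (hτ : ∀ r, τ (star r) = star (τ r))
    (e : K ≃+ L) (he : ∀ (r : R) (x : K), e (r • x) = τ r • e x) : Gr R j L := by
  obtain ⟨X, ε, hX, h1⟩ := h
  refine ⟨_, _, res_twist hX τ e he, fun i hi => ?_⟩
  have hD : ∀ v : X.ι → R, (fun a => τ (v a)) ᵥ* (X.map (τ : R →+* R)).Dᴴ =
      fun b => τ ((v ᵥ* X.Dᴴ) b) := by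
    intro v
    funext b
    show ∑ a, τ (v a) * star (τ (X.D b a)) = τ (∑ a, v a * star (X.D b a))
    rw [map_sum]
    refine Finset.sum_congr rfl fun a _ => ?_
    rw [map_mul, hτ]
  have hinv : ∀ v : X.ι → R, (fun a => τ ((fun b => τ.symm (v b)) a)) = v := by
    intro v
    funext a
    exact τ.apply_symm_apply _
  intro v hv hv0
  have h2 := hD (fun a => τ.symm (v a))
  rw [hinv v] at h2
  obtain ⟨w, hw, hw0⟩ := h1 i hi (fun a => τ.symm (v a)) (fun a ha =>
    hv a fun h0 => ha (by simp [h0])) (by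
      funext b
      apply τ.injective
      rw [Pi.zero_apply, map_zero]
      have := congrFun (h2.symm.trans hv0) b
      exact this)
  refine ⟨fun a => τ (w a), fun a ha => hw a fun h0 => ha (by simp [h0]), ?_⟩
  rw [hD, hw0]
  exact hinv v

end grade

end Pool.Agent.H42.UR
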