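import Pool.Agent.H42.UR.Gra

/-!
# Lifting with shift and sign, the resolution of an extension (block (4), module Horse)
-/

set_option autoImplicit false

namespace Pool.Agent.H42.UR

open Matrix Pool.Agent.H16.UN Pool.Agent.H19.UR

section lift

variable {R : Type} [Ring R]

/-- Lifting of a map of degree `c` given on the basis elements of degree `k`, zero below, which
commutes with the differentials up to the sign `s`. -/
theorem lift_gen {X Y : FC R} (k c s : ℤ) (hs : s * s = 1)
    (hY : ∀ i, k + c < i → Y.Ex i) (f0 : X.ι → Y.ι → R)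
    (h0 : ∀ a, X.deg a = k → Y.Cyc (k + c) (f0 a))
    (h1 : ∀ a, X.deg a = k + 1 → Y.Bd (k + c) (∑ b, X.D a b • f0 b)) :
    ∃ F : Matrix X.ι Y.ι R, HD X Y c F ∧ (∀ a, X.deg a < k → F a = 0) ∧
      (∀ a, X.deg a = k → F a = f0 a) ∧ X.D * F = s • (F * Y.D) := by
  have key : ∀ N : ℕ, ∃ F : Matrix X.ι Y.ι R, HD X Y c F ∧ (∀ a, X.deg a < k → F a = 0) ∧
      (∀ a, X.deg a = k → F a = f0 a) ∧
      ∀ a, X.deg a ≤ k + N → X.D a ᵥ* F = s • (F a ᵥ* Y.D) := by
    intro N
    induction N with
    | zero =>
      refine ⟨upd k f0 0, ?_, ?_, ?_, ?_⟩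
      · intro a b hab
        by_cases ha : X.deg a = k
        · rw [upd_pos ha] at hab
          rw [ha, (h0 a ha).1 b hab]
        · rw [upd_neg ha] at hab
          exact absurd rfl hab
      · intro a ha
        rw [upd_neg (by omega)]
        rfl
      · intro a ha
        exact upd_pos ha
      · intro a ha
        have e1 : X.D a ᵥ* upd k f0 0 = 0 := by
          have e2 : X.D a ᵥ* upd k f0 0 = X.D a ᵥ* (0 : Matrix X.ι Y.ι R) := by
            apply vecMul_rows
            intro b hb
            have := X.hdeg a b hb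
            push_cast at ha
            exact upd_neg (by omega)
          rw [e2]
          exact vecMul_zero _
        rw [e1]
        by_cases ha' : X.deg a = k
        · rw [upd_pos ha', (h0 a ha').2, smul_zero]
        · rw [upd_neg ha']
          have e3 : (0 : Matrix X.ι Y.ι R) a ᵥ* Y.D = 0 := zero_vecMul _
          rw [e3, smul_zero]
    | succ N ih =>
      obtain ⟨F, hd, hz, hf, hc⟩ := ih
      have hw : ∀ a, X.deg a = k + N + 1 → Y.Bd (k + N + c) (X.D a ᵥ* F) := by
        intro a ha
        rcases Nat.eq_zero_or_pos N with hN | hN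
        · subst hN
          have e : X.D a ᵥ* F = ∑ b, X.D a b • f0 b := by
            rw [Matrix.vecMul_eq_sum]
            refine Finset.sum_congr rfl fun b _ => ?_
            by_cases hb : X.D a b = 0
            · rw [hb, zero_smul, zero_smul]
            · have := X.hdeg a b hb
              rw [hf b (by push_cast at ha; omega)]
          rw [e]
          have := h1 a (by push_cast at ha; omega)
          simpa using this
        · have hs1 : Y.Hom (k + N + c) (X.D a ᵥ* F) := by
            have := sup_vecMul hd (sup_row X a)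
            have e : X.deg a - 1 + c = k + N + c := by omega
            rwa [e] at this
          have hz1 : X.D a ᵥ* F ᵥ* Y.D = 0 := by
            rw [vecMul_vecMul]
            have e : X.D a ᵥ* (F * Y.D) = X.D a ᵥ* (s • (X.D * F)) := by
              apply vecMul_rows
              intro b hb
              have := X.hdeg a b hb
              have h2 := hc b (by omega)
              show (F * Y.D) b = s • (X.D * F) b
              rw [row_mul F Y.D, row_mul X.D F, h2, smul_smul, hs, one_smul]
            rw [e, Matrix.vecMul_smul, ← vecMul_vecMul, ← row_mul X.D X.D, X.hD]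
            have e2 : (0 : Matrix X.ι X.ι R) a ᵥ* F = 0 := zero_vecMul _
            rw [e2, smul_zero]
          exact hY (k + N + c) (by omega) _ ⟨hs1, hz1⟩
      choose! w hw1 hw2 using hw
      refine ⟨upd (k + N + 1) (fun a => s • w a) F, ?_, ?_, ?_, ?_⟩
      · intro a b hab
        by_cases ha : X.deg a = k + N + 1
        · rw [upd_pos ha] at hab
          have h3 : w a b ≠ 0 := by
            intro h0
            apply hab
            show s • w a b = 0
            rw [h0, smul_zero]
          rw [ha, hw1 a ha b h3]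
          ring
        · rw [upd_neg ha] at hab
          exact hd a b hab
      · intro a ha
        rw [upd_neg (by omega)]
        exact hz a ha
      · intro a ha
        have : ¬ X.deg a = k + N + 1 := by omega
        rw [upd_neg this]
        exact hf a ha
      · intro a ha
        push_cast at ha
        have e : X.D a ᵥ* (upd (k + N + 1) (fun a => s • w a) F) = X.D a ᵥ* F := by
          apply vecMul_rows
          intro b hb
          have := X.hdeg a b hb
          have h2 : ¬ X.deg b = k + N + 1 := by omega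
          exact upd_neg h2
        rw [e]
        by_cases h2 : X.deg a = k + N + 1
        · rw [upd_pos h2, Matrix.smul_vecMul, hw2 a h2, smul_smul, hs, one_smul]
        · rw [upd_neg h2]
          exact hc a (by omega)
  obtain ⟨N, hN⟩ := deg_bdd X k
  obtain ⟨F, hd, hz, hf, hc⟩ := key N
  refine ⟨F, hd, hz, hf, ?_⟩
  funext a
  show (X.D * F) a = s • (F * Y.D) a
  rw [row_mul X.D F, row_mul F Y.D]
  exact hc a (hN a)

/-- the horseshoe: an extension of modules with resolutions has a resolution -/
theorem horse {K L N : Type} [AddCommGroup K] [Module R K] [AddCommGroup L] [Module R L]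
    [AddCommGroup N] [Module R N] (f : K →ₗ[R] L) (g : L →ₗ[R] N) (hf : Function.Injective f)
    (hg : Function.Surjective g) (hfg : ∀ x, g x = 0 ↔ ∃ y, f y = x)
    {X Z : FC R} {ε : X.ι → K} {ζ : Z.ι → N} (hX : IsRes X ε) (hZ : IsRes Z ζ) :
    ∃ (W : FC R) (η : W.ι → L), IsRes W η := by
  choose l hl using fun a => hg (ζ a)
  have hgl : ∀ v : Z.ι → R, g (ev l v) = ev ζ v := by
    intro v
    rw [ev_apply, ev_apply, map_sum]
    exact Finset.sum_congr rfl fun a _ => by rw [map_smul, hl]
  -- the rows of degree one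
  have hk : ∀ a, Z.deg a = 1 → ∃ x : X.ι → R, X.Hom 0 x ∧ f (ev ε x) = -ev l (Z.D a) := by
    intro a ha
    have h1 : g (-ev l (Z.D a)) = 0 := by
      rw [map_neg, hgl]
      have h2 := hZ.aug (Pi.single a 1) (by
        have := sup_single Z a (1 : R)
        rwa [ha] at this)
      rw [Matrix.single_one_vecMul] at h2
      have e : Z.D.row a = Z.D a := rfl
      rw [e] at h2
      rw [h2, neg_zero]
    obtain ⟨y, hy⟩ := (hfg _).1 h1
    obtain ⟨x, hx, hx0⟩ := hX.surj y
    exact ⟨x, hx, by rw [hx0, hy]⟩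
  choose! t ht1 ht2 using hk
  obtain ⟨T, hT, hT0, hT1, hTD⟩ := lift_gen (X := Z) (Y := X) 1 (-1) (-1) (by norm_num)
    (fun i hi => hX.exact i (by omega)) t
    (fun a ha => by
      have := mem_Z_zero hX.nonneg (ht1 a ha)
      simpa using this) (by
      intro a ha
      have hs : X.Hom 0 (∑ b, Z.D a b • t b) := by
        refine sup_sum _ fun b _ => ?_
        by_cases hb : Z.D a b = 0
        · rw [hb, zero_smul]
          exact sup_zero _ _
        · have := Z.hdeg a b hb
          exact sup_smul _ (ht1 b (by omega))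
      have h2 : f (ev ε (∑ b, Z.D a b • t b)) = 0 := by
        have e : f (ev ε (∑ b, Z.D a b • t b)) = -∑ b, Z.D a b • ev l (Z.D b) := by
          rw [map_sum, map_sum, ← Finset.sum_neg_distrib]
          refine Finset.sum_congr rfl fun b _ => ?_
          by_cases hb : Z.D a b = 0
          · rw [hb]
            simp
          · have := Z.hdeg a b hb
            rw [map_smul, map_smul, ht2 b (by omega), smul_neg]
        rw [e, ← ev_row, ← row_mul Z.D Z.D, Z.hD]
        have e2 : ev l ((0 : Matrix Z.ι Z.ι R) a) = 0 := map_zero _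
        rw [e2, neg_zero]
      have h3 : ev ε (∑ b, Z.D a b • t b) = 0 := hf (by rw [h2, map_zero])
      have h4 := hX.ker _ hs h3
      simpa using h4)
  have hTD' : Z.D * T + T * X.D = 0 := by
    rw [hTD, neg_smul, one_smul, neg_add_cancel]
  have hTe : ∀ z : Z.ι → R, Z.Hom 1 z → f (ev ε (z ᵥ* T)) = -ev l (z ᵥ* Z.D) := by
    intro z hz
    rw [ev_row, ev_row, map_sum, ← Finset.sum_neg_distrib]
    refine Finset.sum_congr rfl fun a _ => ?_
    by_cases ha : z a = 0
    · rw [ha]
      simp
    · rw [map_smul, hT1 a (hz a ha), ht2 a (hz a ha), smul_neg]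
  let W : FC R :=
    { ι := X.ι ⊕ Z.ι
      deg := Sum.elim X.deg Z.deg
      D := fromBlocks X.D 0 T Z.D
      hdeg := by
        rintro (a | a) (b | b) h
        · exact X.hdeg a b h
        · exact absurd rfl h
        · have := hT a b h
          show Z.deg a = X.deg b + 1
          omega
        · exact Z.hdeg a b h
      hD := by
        rw [fromBlocks_multiply]
        simp [X.hD, Z.hD, add_comm (T * X.D), hTD'] }
  have hWD : ∀ (x : X.ι → R) (z : Z.ι → R), (Sum.elim x z : X.ι ⊕ Z.ι → R) ᵥ* W.D =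
      Sum.elim (x ᵥ* X.D + z ᵥ* T) (z ᵥ* Z.D) := by
    intro x z
    show (Sum.elim x z : X.ι ⊕ Z.ι → R) ᵥ* fromBlocks X.D 0 T Z.D = _
    rw [Matrix.vecMul_fromBlocks]
    simp
  have hWH : ∀ (k : ℤ) (x : X.ι → R) (z : Z.ι → R),
      W.Hom k (Sum.elim x z) ↔ X.Hom k x ∧ Z.Hom k z := by
    intro k x z
    constructor
    · intro h
      exact ⟨fun a ha => h (Sum.inl a) ha, fun a ha => h (Sum.inr a) ha⟩
    · rintro ⟨h1, h2⟩ (a | a) ha
      · exact h1 a ha
      · exact h2 a ha
  have hsplit : ∀ v : W.ι → R, ∃ (x : X.ι → R) (z : Z.ι → R), v = Sum.elim x z := fun v =>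
    ⟨fun a => v (Sum.inl a), fun a => v (Sum.inr a), by
      funext a
      rcases a with a | a <;> rfl⟩
  have hev : ∀ (x : X.ι → R) (z : Z.ι → R),
      ev (Sum.elim (fun a => f (ε a)) l) (Sum.elim x z : X.ι ⊕ Z.ι → R)
        = f (ev ε x) + ev l z := by
    intro x z
    rw [ev_apply, Fintype.sum_sum_type, ev_apply, ev_apply, map_sum]
    simp only [Sum.elim_inl, Sum.elim_inr, map_smul]
  refine ⟨W, (Sum.elim (fun a => f (ε a)) l : X.ι ⊕ Z.ι → L), ?_, ?_, ?_, ?_, ?_⟩
  · rintro (a | a)
    · exact hX.nonneg a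
    · exact hZ.nonneg a
  · rintro k hk v ⟨hv, hv0⟩
    obtain ⟨x, z, rfl⟩ := hsplit v
    rw [hWH] at hv
    rw [hWD] at hv0
    have e1 : x ᵥ* X.D + z ᵥ* T = 0 := funext fun a => congrFun hv0 (Sum.inl a)
    have e2 : z ᵥ* Z.D = 0 := funext fun a => congrFun hv0 (Sum.inr a)
    obtain ⟨z', hz1, hz2⟩ := hZ.exact k hk z ⟨hv.2, e2⟩
    have hs : X.Hom k (x - z' ᵥ* T) := by
      have := sup_vecMul hT hz1
      rw [add_neg_cancel_right] at this
      exact sup_sub hv.1 this
    have h0 : (x - z' ᵥ* T) ᵥ* X.D = 0 := by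
      have e3 : z' ᵥ* T ᵥ* X.D = -(z ᵥ* T) := by
        have e4 : z' ᵥ* (Z.D * T + T * X.D) = 0 := by rw [hTD', vecMul_zero]
        rw [vecMul_add, ← vecMul_vecMul, ← vecMul_vecMul, hz2] at e4
        exact (neg_eq_of_add_eq_zero_right e4).symm
      rw [sub_vecMul, e3, sub_neg_eq_add]
      exact e1
    obtain ⟨x', hx1, hx2⟩ := hX.exact k hk _ ⟨hs, h0⟩
    refine ⟨Sum.elim x' z', (hWH _ _ _).2 ⟨hx1, hz1⟩, ?_⟩
    rw [hWD, hx2, hz2, sub_add_cancel]
  · intro w hw
    obtain ⟨x, z, rfl⟩ := hsplit w
    rw [hWH] at hw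
    rw [hWD, hev, map_add, map_add, hX.aug x hw.1, map_zero, zero_add, hTe z hw.2,
      neg_add_cancel]
  · intro v hv h0
    obtain ⟨x, z, rfl⟩ := hsplit v
    rw [hWH] at hv
    rw [hev] at h0
    have h1 : ev ζ z = 0 := by
      have h2 := congrArg g h0
      rw [map_add, hgl, map_zero, (hfg (f (ev ε x))).2 ⟨_, rfl⟩, zero_add] at h2
      exact h2
    obtain ⟨z', hz1, hz2⟩ := hZ.ker z hv.2 h1
    rw [zero_add] at hz1
    have hs : X.Hom 0 (x - z' ᵥ* T) := by
      have := sup_vecMul hT hz1
      rw [add_neg_cancel] at this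
      exact sup_sub hv.1 this
    have h3 : ev ε (x - z' ᵥ* T) = 0 := by
      apply hf
      rw [map_zero, map_sub, map_sub, hTe z' hz1, hz2, sub_neg_eq_add]
      exact h0
    obtain ⟨x', hx1, hx2⟩ := hX.ker _ hs h3
    refine ⟨Sum.elim x' z', (hWH _ _ _).2 ⟨hx1, by simpa using hz1⟩, ?_⟩
    rw [hWD, hx2, hz2, sub_add_cancel]
  · intro y
    obtain ⟨z, hz, hz0⟩ := hZ.surj (g y)
    have h1 : g (y - ev l z) = 0 := by rw [map_sub, hgl, hz0, sub_self]
    obtain ⟨u, hu⟩ := (hfg _).1 h1
    obtain ⟨x, hx, hx0⟩ := hX.surj u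
    refine ⟨Sum.elim x z, (hWH _ _ _).2 ⟨hx, hz⟩, ?_⟩
    rw [hev, hx0, hu, sub_add_cancel]

end lift

section grade

variable {R : Type} [Ring R] [StarRing R] {K L N : Type} [AddCommGroup K] [Module R K]
  [AddCommGroup L] [Module R L] [AddCommGroup N] [Module R N]

/-- extension -/
theorem gr_ext {j : ℕ} (f : K →ₗ[R] L) (g : L →ₗ[R] N) (hf : Function.Injective f)
    (hg : Function.Surjective g) (hfg : ∀ x, g x = 0 ↔ ∃ y, f y = x) (hK : Gr R j K)
    (hN : Gr R j N) : Gr R j L := by
  have h : ∃ (W : FC R) (η : W.ι → L), IsRes W η := by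
    obtain ⟨X, ε, hX, -⟩ := hK
    obtain ⟨Z, ζ, hZ, -⟩ := hN
    exact horse f g hf hg hfg hX hZ
  exact gr_ext' f g hf hg hfg hK hN h

end grade

end Pool.Agent.H42.UR
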