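import Pool.Agent.H42.UR.Bas

/-!
# Lifting of maps and homotopies (block (4) of Theorem U, module Lift)
-/

set_option autoImplicit false

namespace Pool.Agent.H42.UR

open Matrix Pool.Agent.H16.UN Pool.Agent.H19.UR

variable {R : Type} [Ring R]

/-- a product depends only on the rows in the support -/
theorem vecMul_rows {m n : Type} [Fintype m] {v : m → R} {F F' : Matrix m n R}
    (h : ∀ b, v b ≠ 0 → F b = F' b) : v ᵥ* F = v ᵥ* F' := by
  funext j
  show ∑ b, v b * F b j = ∑ b, v b * F' b j
  refine Finset.sum_congr rfl fun b _ => ?_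
  by_cases hb : v b = 0
  · rw [hb, zero_mul, zero_mul]
  · rw [h b hb]

theorem row_mul {l m n : Type} [Fintype m] (A : Matrix l m R) (B : Matrix m n R) (a : l) :
    (A * B) a = A a ᵥ* B := Matrix.mul_apply_eq_vecMul A B a

theorem sup_row (X : FC R) (a : X.ι) : X.Hom (X.deg a - 1) (X.D a) := fun b h => by
  have := X.hdeg a b h
  omega

theorem sup_hrow {X Y : FC R} {c : ℤ} {M : Matrix X.ι Y.ι R} (hM : HD X Y c M) (a : X.ι) :
    Y.Hom (X.deg a + c) (M a) := fun b h => hM a b h

theorem row_zero {X : FC R} {k : ℤ} (hX : ∀ a, k ≤ X.deg a) {a : X.ι} (ha : X.deg a = k) :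
    X.D a = 0 := by
  funext b
  by_contra h
  have h1 := X.hdeg a b h
  have h2 := hX b
  omega

/-- replace the rows of degree `n` -/
def upd {X Y : FC R} (n : ℤ) (w : X.ι → Y.ι → R) (F : Matrix X.ι Y.ι R) : Matrix X.ι Y.ι R :=
  Matrix.of fun a b => if X.deg a = n then w a b else F a b

theorem upd_pos {X Y : FC R} {n : ℤ} {w : X.ι → Y.ι → R} {F : Matrix X.ι Y.ι R} {a : X.ι}
    (h : X.deg a = n) : upd n w F a = w a := by
  funext b
  simp [upd, h]

theorem upd_neg {X Y : FC R} {n : ℤ} {w : X.ι → Y.ι → R} {F : Matrix X.ι Y.ι R} {a : X.ι}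
    (h : ¬ X.deg a = n) : upd n w F a = F a := by
  funext b
  simp [upd, h]

/-- Lifting of a map given on the basis elements of the lowest degree `k`. -/
theorem lift_ex {X Y : FC R} (k : ℤ) (hX : ∀ a, k ≤ X.deg a)
    (hY : ∀ i, k < i → Y.Ex i) (f0 : X.ι → Y.ι → R)
    (h0 : ∀ a, X.deg a = k → Y.Cyc k (f0 a))
    (h1 : ∀ a, X.deg a = k + 1 → Y.Bd k (∑ b, X.D a b • f0 b)) :
    ∃ F : Matrix X.ι Y.ι R, IsMap X Y F ∧ ∀ a, X.deg a = k → F a = f0 a := by
  have key : ∀ N : ℕ, ∃ F : Matrix X.ι Y.ι R, (∀ a b, F a b ≠ 0 → X.deg a = Y.deg b) ∧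
      (∀ a, X.deg a = k → F a = f0 a) ∧
      ∀ a, X.deg a ≤ k + N → (X.D * F) a = (F * Y.D) a := by
    intro N
    induction N with
    | zero =>
      refine ⟨upd k f0 0, ?_, ?_, ?_⟩
      · intro a b hab
        by_cases ha : X.deg a = k
        · rw [upd_pos ha] at hab
          rw [ha, (h0 a ha).1 b hab]
        · rw [upd_neg ha] at hab
          exact absurd rfl hab
      · intro a ha
        exact upd_pos ha
      · intro a ha
        have ha' : X.deg a = k := by
          have := hX a
          push_cast at ha
          omega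
        rw [row_mul, row_mul, row_zero hX ha', zero_vecMul, upd_pos ha']
        exact (h0 a ha').2.symm
    | succ N ih =>
      obtain ⟨F, hd, hf, hc⟩ := ih
      have hw : ∀ a, X.deg a = k + N + 1 → Y.Bd (k + N) (X.D a ᵥ* F) := by
        intro a ha
        rcases Nat.eq_zero_or_pos N with hN | hN
        · subst hN
          have e : X.D a ᵥ* F = ∑ b, X.D a b • f0 b := by
            rw [Matrix.vecMul_eq_sum]
            refine Finset.sum_congr rfl fun b _ => ?_
            by_cases hb : X.D a b = 0
            · rw [hb, zero_smul, zero_smul]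
            · have := X.hdeg a b hb
              rw [hf b (by push_cast at ha; omega)]
          rw [e]
          have := h1 a (by push_cast at ha; omega)
          simpa using this
        · have hs : Y.Hom (k + N) (X.D a ᵥ* F) := by
            have hF : HD X Y 0 F := fun a b h => by rw [hd a b h, add_zero]
            have := sup_vecMul hF (sup_row X a)
            have e : X.deg a - 1 + 0 = k + N := by omega
            rwa [e] at this
          have hz : X.D a ᵥ* F ᵥ* Y.D = 0 := by
            rw [vecMul_vecMul]
            have e : X.D a ᵥ* (F * Y.D) = X.D a ᵥ* (X.D * F) := by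
              apply vecMul_rows
              intro b hb
              have := X.hdeg a b hb
              exact (hc b (by omega)).symm
            rw [e, ← vecMul_vecMul, ← row_mul X.D X.D, X.hD]
            exact zero_vecMul _
          exact hY (k + N) (by omega) _ ⟨hs, hz⟩
      choose! w hw1 hw2 using hw
      refine ⟨upd (k + N + 1) w F, ?_, ?_, ?_⟩
      · intro a b hab
        by_cases ha : X.deg a = k + N + 1
        · rw [upd_pos ha] at hab
          rw [ha, hw1 a ha b hab]
        · rw [upd_neg ha] at hab
          exact hd a b hab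
      · intro a ha
        have : ¬ X.deg a = k + N + 1 := by omega
        rw [upd_neg this]
        exact hf a ha
      · intro a ha
        push_cast at ha
        rw [row_mul, row_mul]
        have e : X.D a ᵥ* (upd (k + N + 1) w F) = X.D a ᵥ* F := by
          apply vecMul_rows
          intro b hb
          have := X.hdeg a b hb
          have h2 : ¬ X.deg b = k + N + 1 := by omega
          exact upd_neg h2
        rw [e]
        by_cases h2 : X.deg a = k + N + 1
        · rw [upd_pos h2]
          exact (hw2 a h2).symm
        · rw [upd_neg h2]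
          have := hc a (by omega)
          rwa [row_mul, row_mul] at this
  obtain ⟨N, hN⟩ := deg_bdd X k
  obtain ⟨F, hd, hf, hc⟩ := key N
  exact ⟨F, ⟨hd, funext fun a => hc a (hN a)⟩, hf⟩

/-- A chain map which is null homologous on the basis elements of the lowest degree is null
homotopic. -/
theorem htpy_exists {X Y : FC R} (k : ℤ) (hX : ∀ a, k ≤ X.deg a)
    (hY : ∀ i, k < i → Y.Ex i) {F : Matrix X.ι Y.ι R} (hF : IsMap X Y F)
    (h0 : ∀ a, X.deg a = k → Y.Bd k (F a)) :
    ∃ H : Matrix X.ι Y.ι R, HD X Y 1 H ∧ F = X.D * H + H * Y.D := by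
  have key : ∀ N : ℕ, ∃ H : Matrix X.ι Y.ι R, HD X Y 1 H ∧
      ∀ a, X.deg a ≤ k + N → F a = (X.D * H) a + (H * Y.D) a := by
    intro N
    induction N with
    | zero =>
      choose! w hw1 hw2 using h0
      refine ⟨upd k w 0, ?_, ?_⟩
      · intro a b hab
        by_cases ha : X.deg a = k
        · rw [upd_pos ha] at hab
          rw [ha, hw1 a ha b hab]
        · rw [upd_neg ha] at hab
          exact absurd rfl hab
      · intro a ha
        have ha' : X.deg a = k := by
          have := hX a
          push_cast at ha
          omega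
        rw [row_mul, row_mul, row_zero hX ha', zero_vecMul, zero_add, upd_pos ha']
        exact (hw2 a ha').symm
    | succ N ih =>
      obtain ⟨H, hd, hc⟩ := ih
      have hw : ∀ a, X.deg a = k + N + 1 →
          ∃ w, Y.Hom (k + N + 1 + 1) w ∧ w ᵥ* Y.D = F a - X.D a ᵥ* H := by
        intro a ha
        have hs : Y.Hom (k + N + 1) (F a - X.D a ᵥ* H) := by
          apply sup_sub
          · have := sup_hrow (hd_map hF) a
            rwa [add_zero, ha] at this
          · have := sup_vecMul hd (sup_row X a)
            have e : X.deg a - 1 + 1 = k + N + 1 := by omega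
            rwa [e] at this
        have hz : (F a - X.D a ᵥ* H) ᵥ* Y.D = 0 := by
          rw [sub_vecMul, vecMul_vecMul, ← row_mul F, ← hF.comm, row_mul]
          have e : X.D a ᵥ* F = X.D a ᵥ* (X.D * H + H * Y.D) := by
            apply vecMul_rows
            intro b hb
            have := X.hdeg a b hb
            exact hc b (by omega)
          rw [e, vecMul_add, ← vecMul_vecMul (X.D a) X.D H, ← row_mul X.D X.D, X.hD]
          have e2 : (0 : Matrix X.ι X.ι R) a ᵥ* H = 0 := zero_vecMul _
          rw [e2, zero_add, sub_self]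
        exact hY (k + N + 1) (by omega) _ ⟨hs, hz⟩
      choose! w hw1 hw2 using hw
      refine ⟨upd (k + N + 1) w H, ?_, ?_⟩
      · intro a b hab
        by_cases ha : X.deg a = k + N + 1
        · rw [upd_pos ha] at hab
          rw [ha, hw1 a ha b hab]
        · rw [upd_neg ha] at hab
          exact hd a b hab
      · intro a ha
        push_cast at ha
        rw [row_mul, row_mul]
        have e : X.D a ᵥ* (upd (k + N + 1) w H) = X.D a ᵥ* H := by
          apply vecMul_rows
          intro b hb
          have := X.hdeg a b hb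
          have h2 : ¬ X.deg b = k + N + 1 := by omega
          exact upd_neg h2
        rw [e]
        by_cases h2 : X.deg a = k + N + 1
        · rw [upd_pos h2, hw2 a h2]
          abel
        · rw [upd_neg h2]
          have := hc a (by omega)
          rwa [row_mul, row_mul] at this
  obtain ⟨N, hN⟩ := deg_bdd X k
  obtain ⟨H, hd, hc⟩ := key N
  exact ⟨H, hd, funext fun a => hc a (hN a)⟩

end Pool.Agent.H42.UR
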