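import Pool.Agent.H42.UR.Lift

/-!
# Resolutions: lifting of (semi)linear maps, uniqueness, independence (block (4), module Res)
-/

set_option autoImplicit false

namespace Pool.Agent.H42.UR

open Matrix Pool.Agent.H16.UN Pool.Agent.H19.UR

section

variable {R : Type} [Ring R]

/-- the complex with the entries changed by a ring homomorphism -/
@[reducible] def mapC (σ : R →+* R) (X : FC R) : FC R where
  ι := X.ι
  deg := X.deg
  D := X.D.map σ
  hdeg a b h := X.hdeg a b fun h0 => h (by simp [h0])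
  hD := by
    rw [← Matrix.map_mul, X.hD]
    ext a b
    simp

theorem ev_single {ι : Type} [Fintype ι] [DecidableEq ι] {K : Type} [AddCommGroup K]
    [Module R K] (ε : ι → K) (a : ι) : ev ε (Pi.single a (1 : R)) = ε a := by
  show ∑ b, (Pi.single a (1 : R) : ι → R) b • ε b = ε a
  rw [Finset.sum_eq_single a]
  · rw [Pi.single_eq_same, one_smul]
  · intro b _ hb
    rw [Pi.single_eq_of_ne hb, zero_smul]
  · intro h
    exact absurd (Finset.mem_univ a) h

theorem ev_apply {ι : Type} [Fintype ι] {K : Type} [AddCommGroup K]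
    [Module R K] (ε : ι → K) (v : ι → R) : ev ε v = ∑ a, v a • ε a := rfl

theorem ev_row {m n : Type} [Fintype m] [Fintype n] {K : Type} [AddCommGroup K]
    [Module R K] (δ : n → K) (v : m → R) (F : Matrix m n R) :
    ev δ (v ᵥ* F) = ∑ a, v a • ev δ (F a) := by
  rw [Matrix.vecMul_eq_sum, map_sum]
  exact Finset.sum_congr rfl fun a _ => map_smul _ _ _

theorem mem_Z_zero {X : FC R} (hX : ∀ a, 0 ≤ X.deg a) {v : X.ι → R} (hv : X.Hom 0 v) :
    X.Cyc 0 v := by
  refine ⟨hv, ?_⟩
  refine eq_zero_of_sup (sup_D hv) fun a => ?_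
  have := hX a
  omega

/-- lifting of a semilinear map to a semilinear chain map of resolutions -/
theorem lift_semi (σ : R →+* R) {X Y : FC R} {K L : Type} [AddCommGroup K] [Module R K]
    [AddCommGroup L] [Module R L] {ε : X.ι → K} {δ : Y.ι → L} (hX : IsRes X ε) (hY : IsRes Y δ)
    (g : K →+ L) (hg : ∀ r x, g (r • x) = σ r • g x) :
    ∃ F : Matrix X.ι Y.ι R, IsMap (mapC σ X) Y F ∧
      ∀ v, X.Hom 0 v → ev δ ((fun a => σ (v a)) ᵥ* F) = g (ev ε v) := by
  choose f0 hf1 hf2 using fun a => hY.surj (g (ε a))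
  have key : ∀ v : X.ι → R, ev δ (∑ b, σ (v b) • f0 b) = g (ev ε v) := by
    intro v
    rw [map_sum, ev_apply, map_sum]
    refine Finset.sum_congr rfl fun b _ => ?_
    rw [map_smul, hf2, hg]
  obtain ⟨F, hF, h0⟩ := lift_ex (X := mapC σ X) (Y := Y) 0 hX.nonneg hY.exact f0
    (fun a _ => mem_Z_zero hY.nonneg (hf1 a)) (by
      intro a ha
      have hs : Y.Hom 0 (∑ b, σ (X.D a b) • f0 b) :=
        sup_sum _ fun b _ => sup_smul _ (hf1 b)
      refine hY.ker _ hs ?_
      have h1 := hX.aug (Pi.single a 1) (by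
        have := sup_single X a (1 : R)
        have e : X.deg a = 1 := by
          have h : X.deg a = 0 + 1 := ha
          omega
        rwa [e] at this)
      rw [Matrix.single_one_vecMul] at h1
      have e : X.D.row a = X.D a := rfl
      rw [e] at h1
      have h2 : ev δ (∑ b, σ (X.D a b) • f0 b) = 0 := by
        rw [key (X.D a), h1, map_zero]
      exact h2)
  refine ⟨F, hF, fun v hv => ?_⟩
  have e : (fun a => σ (v a)) ᵥ* F = ∑ b, σ (v b) • f0 b := by
    rw [Matrix.vecMul_eq_sum]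
    refine Finset.sum_congr rfl fun b _ => ?_
    by_cases hb : v b = 0
    · simp [hb]
    · rw [h0 b (hv b hb)]
  rw [e, key]

theorem mapC_id (X : FC R) : mapC (RingHom.id R) X = X := by
  cases X
  simp [mapC]

/-- lifting of a linear map to a chain map of resolutions -/
theorem lift_lin {X Y : FC R} {K L : Type} [AddCommGroup K] [Module R K]
    [AddCommGroup L] [Module R L] {ε : X.ι → K} {δ : Y.ι → L} (hX : IsRes X ε) (hY : IsRes Y δ)
    (g : K →ₗ[R] L) :
    ∃ F : Matrix X.ι Y.ι R, IsMap X Y F ∧ ∀ v, X.Hom 0 v → ev δ (v ᵥ* F) = g (ev ε v) := by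
  obtain ⟨F, hF, h⟩ := lift_semi (RingHom.id R) hX hY g.toAddMonoidHom (fun r x => by simp)
  refine ⟨F, ⟨hF.hom, ?_⟩, h⟩
  have := hF.comm
  have e : X.D.map (RingHom.id R) = X.D := by ext a b; simp
  rw [← this]
  show X.D * F = X.D.map (RingHom.id R) * F
  rw [e]

/-- a chain map of resolutions over the zero map is null homotopic -/
theorem htpy_lin {X Y : FC R} {K L : Type} [AddCommGroup K] [Module R K]
    [AddCommGroup L] [Module R L] {ε : X.ι → K} {δ : Y.ι → L} (hX : IsRes X ε) (hY : IsRes Y δ)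
    {F : Matrix X.ι Y.ι R} (hF : IsMap X Y F) (h0 : ∀ v, X.Hom 0 v → ev δ (v ᵥ* F) = 0) :
    ∃ H : Matrix X.ι Y.ι R, HD X Y 1 H ∧ F = X.D * H + H * Y.D := by
  refine htpy_exists 0 hX.nonneg hY.exact hF fun a ha => ?_
  have h1 := sup_single X a (1 : R)
  rw [ha] at h1
  have h2 := h0 _ h1
  rw [Matrix.single_one_vecMul] at h2
  have h3 : Y.Hom 0 (F a) := by
    have := sup_hrow (hd_map hF) a
    rwa [add_zero, ha] at this
  exact hY.ker _ h3 h2

theorem IsMap_sub {X Y : FC R} {F G : Matrix X.ι Y.ι R} (hF : IsMap X Y F) (hG : IsMap X Y G) :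
    IsMap X Y (F - G) where
  hom a b h := by
    by_cases h1 : F a b = 0
    · exact hG.hom a b fun h2 => h (by simp [h1, h2])
    · exact hF.hom a b h1
  comm := by rw [Matrix.mul_sub, Matrix.sub_mul, hF.comm, hG.comm]

/-- `F : X → Y` and `G : Y → X` with `F G ≃ 1` (as maps `X → X`) -/
structure Retr (X Y : FC R) (F : Matrix X.ι Y.ι R) (G : Matrix Y.ι X.ι R) : Prop where
  hF : IsMap X Y F
  hG : IsMap Y X G
  htpy : ∃ H : Matrix X.ι X.ι R, HD X X 1 H ∧ F * G = 1 + (X.D * H + H * X.D)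

/-- two resolutions of the same module are homotopy equivalent -/
theorem res_retr {X Y : FC R} {K : Type} [AddCommGroup K] [Module R K] {ε : X.ι → K}
    {δ : Y.ι → K} (hX : IsRes X ε) (hY : IsRes Y δ) :
    ∃ (F : Matrix X.ι Y.ι R) (G : Matrix Y.ι X.ι R), Retr X Y F G ∧ Retr Y X G F := by
  obtain ⟨F, hF, hF0⟩ := lift_lin hX hY LinearMap.id
  obtain ⟨G, hG, hG0⟩ := lift_lin hY hX LinearMap.id
  refine ⟨F, G, ⟨hF, hG, ?_⟩, ⟨hG, hF, ?_⟩⟩
  · have h := htpy_lin hX hX (IsMap_sub (IsMap.mul hF hG) (IsMap_one X)) (by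
      intro v hv
      rw [vecMul_sub, map_sub, vecMul_one, ← vecMul_vecMul, hG0, hF0 v hv]
      · simp
      · have := sup_vecMul (hd_map hF) hv
        rwa [add_zero] at this)
    obtain ⟨H, h1, h2⟩ := h
    exact ⟨H, h1, by rw [← h2]; abel⟩
  · have h := htpy_lin hY hY (IsMap_sub (IsMap.mul hG hF) (IsMap_one Y)) (by
      intro v hv
      rw [vecMul_sub, map_sub, vecMul_one, ← vecMul_vecMul, hF0, hG0 v hv]
      · simp
      · have := sup_vecMul (hd_map hG) hv
        rwa [add_zero] at this)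
    obtain ⟨H, h1, h2⟩ := h
    exact ⟨H, h1, by rw [← h2]; abel⟩

end

end Pool.Agent.H42.UR
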